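import Pool.Agent.H45.EGD.S1

/-!
# EGD, row CHN: existence of a longest chain
-/

set_option autoImplicit false

namespace Pool.EGD

open MvPolynomial Pool.EGH

namespace Chn

variable {K : Type} [Field K] {N : ℕ} {S : Type} [AddCommGroup S] [Module K S]

/-- A chain of length `n`. -/
def Cn (L : Submodule K (PR K N)) (p q : S →ₗ[K] PR K N) (n : ℕ) (x : ℕ → S) : Prop :=
  x 0 ≠ 0 ∧ ∀ i, i + 1 < n → q (x i) - p (x (i + 1)) ∈ L

variable {L : Submodule K (PR K N)} {p q : S →ₗ[K] PR K N}

theorem li [IsAlgClosed K] [Module.Finite K S] (h : Pc L p q) (x : ℕ → S) (n : ℕ)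
    (hx : Cn L p q n x) : LinearIndependent K (fun i : Fin n => x i) := by
  induction n with
  | zero => exact linearIndependent_empty_type
  | succ n ih =>
    have ih' := ih ⟨hx.1, fun i hi => hx.2 i (by omega)⟩
    rw [linearIndependent_finSucc']
    refine ⟨ih', ?_⟩
    have hinit : (Fin.init (fun i : Fin (n + 1) => x i) : Fin n → S) = fun i : Fin n => x i :=
      rfl
    rw [hinit]
    change x n ∉ Submodule.span K (Set.range fun i : Fin n => x i)
    rcases Nat.eq_zero_or_pos n with h0 | h0
    · subst h0
      intro hmem
      apply hx.1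
      have hr : Set.range (fun i : Fin 0 => x i) = ∅ := Set.range_eq_empty _
      rw [hr, Submodule.span_empty, Submodule.mem_bot] at hmem
      exact hmem
    intro hmem
    set T := Submodule.span K (Set.range fun i : Fin n => x i) with hT
    have hxT : ∀ i, i ≤ n → x i ∈ T := by
      intro i hi
      rcases Nat.lt_or_ge i n with h1 | h1
      · exact Submodule.subset_span ⟨⟨i, h1⟩, rfl⟩
      · have : i = n := by omega
        rw [this]
        exact hmem
    have hqT : ∀ t ∈ T, ∃ t' ∈ T, q t - p t' ∈ L := by
      intro t ht
      induction ht using Submodule.span_induction with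
      | mem s hs =>
        obtain ⟨i, rfl⟩ := hs
        exact ⟨x (i + 1), hxT _ (by have := i.isLt; omega), hx.2 i (by have := i.isLt; omega)⟩
      | zero => exact ⟨0, zero_mem _, by simp⟩
      | add s s' _ _ h1 h2 =>
        obtain ⟨u, hu, h1⟩ := h1
        obtain ⟨u', hu', h2⟩ := h2
        refine ⟨u + u', add_mem hu hu', ?_⟩
        have : q (s + s') - p (u + u') = (q s - p u) + (q s' - p u') := by
          rw [map_add, map_add]; abel
        rw [this]
        exact add_mem h1 h2
      | smul c s _ h1 =>
        obtain ⟨u, hu, h1⟩ := h1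
        refine ⟨c • u, Submodule.smul_mem _ c hu, ?_⟩
        rw [map_smul, map_smul, ← smul_sub]
        exact Submodule.smul_mem _ c h1
    -- the left inverse of `p` modulo `L`
    obtain ⟨g, hg⟩ := LinearMap.exists_leftInverse_of_injective (L.mkQ ∘ₗ p) (by
      rw [LinearMap.ker_eq_bot']
      intro z hz
      rw [LinearMap.comp_apply, Submodule.mkQ_apply, Submodule.Quotient.mk_eq_zero] at hz
      rcases h.inj 1 0 z (by simpa using hz) with h1 | h1
      · exact h1
      · exact absurd h1.1 one_ne_zero)
    let ψ : PR K N →ₗ[K] S := g ∘ₗ L.mkQ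
    have hψp : ∀ z, ψ (p z) = z := fun z => LinearMap.congr_fun hg z
    have hψL : ∀ l ∈ L, ψ l = 0 := by
      intro l hl
      change g (L.mkQ l) = 0
      rw [Submodule.mkQ_apply, (Submodule.Quotient.mk_eq_zero L).2 hl, map_zero]
    have hψq : ∀ t t', q t - p t' ∈ L → ψ (q t) = t' := by
      intro t t' h1
      have h2 := hψL _ h1
      rw [map_sub, hψp, sub_eq_zero] at h2
      exact h2
    have hE : ∀ t ∈ T, (ψ ∘ₗ q) t ∈ T := by
      intro t ht
      obtain ⟨t', ht', h1⟩ := hqT t ht
      rw [LinearMap.comp_apply, hψq t t' h1]
      exact ht'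
    let E : Module.End K T := (ψ ∘ₗ q).restrict hE
    have : Nontrivial T := by
      refine ⟨⟨⟨x 0, hxT 0 (by omega)⟩, 0, ?_⟩⟩
      intro h1
      exact hx.1 (congrArg Subtype.val h1)
    obtain ⟨μ, hμ⟩ := Module.End.exists_eigenvalue E
    obtain ⟨v, hv⟩ := hμ.exists_hasEigenvector
    have hv1 : E v = μ • v := hv.apply_eq_smul
    have hv0 : v ≠ 0 := hv.2
    obtain ⟨t', ht', h1⟩ := hqT v v.2
    have h2 := hψq _ _ h1
    have h3 : t' = μ • (v : S) := by
      rw [← h2]
      exact congrArg Subtype.val hv1
    rw [h3, map_smul] at h1
    rcases h.inj (-μ) 1 v (by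
      have : (-μ) • p (v : S) + (1 : K) • q (v : S) = q v - μ • p (v : S) := by
        rw [neg_smul, one_smul]; abel
      rw [this]
      exact h1) with h4 | h4
    · exact hv0 (Subtype.ext h4)
    · exact one_ne_zero h4.2

end Chn

open Chn in
/-- CHN. -/
theorem t_chn : CHNStmt := by
  classical
  intro K _ _ N S _ _ _ L p q h hS
  have hone : ∃ x, Cn L p q 1 x := by
    have hnt : Nontrivial S := Module.nontrivial_of_finrank_pos (R := K) (by omega)
    obtain ⟨x0, hx0⟩ := exists_ne (0 : S)
    exact ⟨fun _ => x0, hx0, fun i hi => by omega⟩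
  have hmax : ∃ a, 1 ≤ a ∧ (∃ x, Cn L p q a x) ∧ ¬ ∃ x, Cn L p q (a + 1) x := by
    by_contra hcon
    have hall : ∀ a, ∃ x, Cn L p q (a + 1) x := by
      intro a
      induction a with
      | zero => exact hone
      | succ a ih =>
        by_contra h2
        exact hcon ⟨a + 1, by omega, ih, h2⟩
    obtain ⟨x, hx⟩ := hall (Module.finrank K S)
    have h1 := (li h x _ hx).fintype_card_le_finrank
    rw [Fintype.card_fin] at h1
    omega
  obtain ⟨a, ha, ⟨x, hx⟩, hno⟩ := hmax
  let y : ℕ → PR K N := fun i => if i < a then p (x i) else q (x (a - 1))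
  have hy1 : ∀ i, i < a → y i = p (x i) := fun i hi => if_pos hi
  have hya : y a = q (x (a - 1)) := if_neg (lt_irrefl a)
  have hqy : ∀ i, i < a → q (x i) - y (i + 1) ∈ L := by
    intro i hi
    rcases Nat.lt_or_ge (i + 1) a with h1 | h1
    · rw [hy1 _ h1]
      exact hx.2 i h1
    · have h2 : i + 1 = a := by omega
      rw [h2, hya]
      have h3 : a - 1 = i := by omega
      rw [h3, sub_self]
      exact zero_mem _
  have hyn : y a ∉ L ⊔ LinearMap.range p := by
    intro h1
    obtain ⟨l, hl, _, ⟨z, rfl⟩, h2⟩ := Submodule.mem_sup.1 h1
    apply hno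
    refine ⟨fun i => if i < a then x i else z, ?_, ?_⟩
    · change (if 0 < a then x 0 else z) ≠ 0
      rw [if_pos (by omega : 0 < a)]
      exact hx.1
    · intro i hi
      change q (if i < a then x i else z) - p (if i + 1 < a then x (i + 1) else z) ∈ L
      rw [if_pos (by omega)]
      rcases Nat.lt_or_ge (i + 1) a with h3 | h3
      · rw [if_pos h3]
        exact hx.2 i h3
      · rw [if_neg (by omega)]
        have h4 : a - 1 = i := by omega
        rw [hya, h4] at h2
        rw [← h2, add_sub_cancel_right]
        exact hl
  refine ⟨a, x, y, ha, hy1, hqy, ?_, hyn, li h x a hx, ?_⟩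
  · intro i _
    by_cases h1 : i < a
    · rw [hy1 i h1]
      exact h.hp _
    · change (if i < a then p (x i) else q (x (a - 1))) ∈ fm K N 1
      rw [if_neg h1]
      exact h.hq _
  · intro b c z hz
    set T := Submodule.span K (x '' Set.Iio a) with hT
    have hxT : ∀ i, i < a → x i ∈ T := fun i hi => Submodule.subset_span ⟨i, hi, rfl⟩
    by_cases hc : c = 0
    · subst hc
      by_cases hb : b = 0
      · exact Or.inr ⟨hb, rfl⟩
      · left
        rw [zero_smul, add_zero] at hz
        have hle : L ⊔ Submodule.span K (y '' Set.Iic a) ≤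
            L ⊔ (T.map p ⊔ Submodule.span K {y a}) := by
          refine sup_le le_sup_left (Submodule.span_le.2 ?_)
          rintro _ ⟨i, hi, rfl⟩
          have hi' : i ≤ a := hi
          rcases Nat.lt_or_ge i a with h1 | h1
          · rw [hy1 i h1]
            exact Submodule.mem_sup_right (Submodule.mem_sup_left
              (Submodule.mem_map_of_mem (hxT i h1)))
          · have : i = a := by omega
            rw [this]
            exact Submodule.mem_sup_right (Submodule.mem_sup_right
              (Submodule.mem_span_singleton_self _))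
        obtain ⟨l, hl, w, hw, h1⟩ := Submodule.mem_sup.1 (hle hz)
        obtain ⟨_, ⟨t, ht, rfl⟩, w', hw', h2⟩ := Submodule.mem_sup.1 hw
        obtain ⟨e, rfl⟩ := Submodule.mem_span_singleton.1 hw'
        have he : e = 0 := by
          by_contra he
          apply hyn
          have h3 : y a = e⁻¹ • ((-l) + p (b • z - t)) := by
            rw [map_sub, map_smul, ← h1, ← h2]
            have : -l + (l + (p t + e • y a) - p t) = e • y a := by abel
            rw [this, smul_smul, inv_mul_cancel₀ he, one_smul]
          rw [h3]
          exact Submodule.smul_mem _ _ (add_mem (Submodule.mem_sup_left (neg_mem hl))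
            (Submodule.mem_sup_right ⟨_, rfl⟩))
        rw [he, zero_smul, add_zero] at h2
        have h4 : p (b • z - t) ∈ L := by
          rw [map_sub, map_smul, ← h1, ← h2, add_sub_cancel_right]
          exact hl
        rcases h.inj 1 0 (b • z - t) (by simpa using h4) with h5 | h5
        · have h6 : z = b⁻¹ • t := by
            rw [sub_eq_zero] at h5
            rw [← h5, smul_smul, inv_mul_cancel₀ hb, one_smul]
          rw [h6]
          exact Submodule.smul_mem _ _ ht
        · exact absurd h5.1 one_ne_zero
    · left
      -- divide by `c`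
      set b' := c⁻¹ * b with hb'
      have hz' : b' • p z + q z ∈ L ⊔ Submodule.span K (y '' Set.Iic a) := by
        have h1 := Submodule.smul_mem _ c⁻¹ hz
        rw [smul_add, smul_smul, smul_smul, inv_mul_cancel₀ hc, one_smul] at h1
        exact h1
      set W := L ⊔ (T.map (b' • p + q) ⊔ Submodule.span K {y 0}) with hW
      have hyW : ∀ i, i ≤ a → y i ∈ W := by
        intro i
        induction i with
        | zero =>
          intro _
          exact Submodule.mem_sup_right (Submodule.mem_sup_right
            (Submodule.mem_span_singleton_self _))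
        | succ i ih =>
          intro hi
          have h1 : y (i + 1) = (b' • p + q) (x i) - b' • y i - (q (x i) - y (i + 1)) := by
            rw [hy1 i (by omega), LinearMap.add_apply, LinearMap.smul_apply]
            abel
          rw [h1]
          refine sub_mem (sub_mem ?_ ?_) ?_
          · exact Submodule.mem_sup_right (Submodule.mem_sup_left
              (Submodule.mem_map_of_mem (hxT i (by omega))))
          · exact Submodule.smul_mem _ _ (ih (by omega))
          · exact Submodule.mem_sup_left (hqy i (by omega))
      have hle : L ⊔ Submodule.span K (y '' Set.Iic a) ≤ W := by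
        refine sup_le le_sup_left (Submodule.span_le.2 ?_)
        rintro _ ⟨i, hi, rfl⟩
        exact hyW i hi
      obtain ⟨l, hl, w, hw, h1⟩ := Submodule.mem_sup.1 (hle hz')
      obtain ⟨_, ⟨t, ht, rfl⟩, w', hw', h2⟩ := Submodule.mem_sup.1 hw
      obtain ⟨e, rfl⟩ := Submodule.mem_span_singleton.1 hw'
      have hu0 : b' • p (z - t) + q (z - t) - e • p (x 0) ∈ L := by
        have h3 : b' • p (z - t) + q (z - t) - e • p (x 0) = l := by
          rw [LinearMap.add_apply, LinearMap.smul_apply, hy1 0 ha] at h2
          rw [map_sub, map_sub, smul_sub]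
          have h4 : b' • p z - b' • p t + (q z - q t) - e • p (x 0) =
              (b' • p z + q z) - (b' • p t + q t + e • p (x 0)) := by abel
          rw [h4, h2, ← h1, add_sub_cancel_right]
        rw [h3]
        exact hl
      by_cases he : e = 0
      · rw [he, zero_smul, sub_zero] at hu0
        rcases h.inj b' 1 (z - t) (by rw [one_smul]; exact hu0) with h3 | h3
        · rw [sub_eq_zero] at h3
          rw [h3]
          exact ht
        · exact absurd h3.2 one_ne_zero
      · exfalso
        apply hno
        let u : ℕ → S := fun j => Nat.rec (z - t) (fun k v => e • x k - b' • v) j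
        have hu1 : u 0 = z - t := rfl
        have hu2 : ∀ j, u (j + 1) = e • x j - b' • u j := fun j => rfl
        refine ⟨u, ?_, ?_⟩
        · rw [hu1]
          intro h3
          rw [h3, map_zero, map_zero, smul_zero, add_zero, zero_sub, ← smul_neg,
            ← map_neg] at hu0
          rcases h.inj e 0 (-(x 0)) (by simpa using hu0) with h4 | h4
          · exact hx.1 (neg_eq_zero.1 h4)
          · exact he h4.1
        · intro i
          induction i with
          | zero =>
            intro _
            rw [hu2 0, hu1]
            have h3 : q (z - t) - p (e • x 0 - b' • (z - t)) =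
                b' • p (z - t) + q (z - t) - e • p (x 0) := by
              rw [map_sub p (e • x 0), map_smul, map_smul]
              abel
            rw [h3]
            exact hu0
          | succ i ih =>
            intro hi
            have h3 := ih (by omega)
            have h4 := hx.2 i (by omega)
            rw [hu2 (i + 1), hu2 i] at *
            have h5 : q (e • x i - b' • u i) - p (e • x (i + 1) -
                b' • (e • x i - b' • u i)) =
                e • (q (x i) - p (x (i + 1))) -
                  b' • (q (u i) - p (e • x i - b' • u i)) := by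
              rw [map_sub q, map_smul q, map_smul q, map_sub p (e • x (i + 1)), map_smul p e,
                map_smul p b', smul_sub, smul_sub b']
              abel
            rw [h5]
            exact sub_mem (Submodule.smul_mem _ _ h4) (Submodule.smul_mem _ _ h3)

end Pool.EGD
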