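import Pool.Agent.H45.EGD.S1

/-!
# EGD, row CLQ: the colon ideals of the chain
-/

set_option autoImplicit false

namespace Pool.EGD

open MvPolynomial Pool.EGH

namespace Clq

variable {K : Type} [Field K] {N : ℕ} {S : Type} [AddCommGroup S] [Module K S]
  {L : Submodule K (PR K N)} {p q : S →ₗ[K] PR K N}

theorem fi_le (c : K) (J : Ideal (PR K N)) (hL : ∀ l ∈ L, l ∈ J)
    (hp : ∀ x, p x + c • q x ∈ J) : fi L p q c ≤ J := by
  unfold fi
  rw [Ideal.span_le]
  intro w hw
  rw [SetLike.mem_coe, Submodule.mem_sup] at hw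
  obtain ⟨l, hl, z, ⟨x, rfl⟩, rfl⟩ := hw
  exact J.add_mem (hL l hl) (by simpa using hp x)

theorem mi_le (J : Ideal (PR K N)) (hL : ∀ l ∈ L, l ∈ J)
    (hm : ∀ x y, p x * q y - p y * q x ∈ J) : mi L p q ≤ J := by
  unfold mi
  refine sup_le (Ideal.span_le.2 hL) (Ideal.span_le.2 ?_)
  rintro f ⟨x, y, rfl⟩
  exact hm x y

theorem L_mi {l : PR K N} (hl : l ∈ L) : l ∈ mi L p q :=
  Ideal.mem_sup_left (Ideal.subset_span hl)

theorem minor_mi (x y : S) : p x * q y - p y * q x ∈ mi L p q :=
  Ideal.mem_sup_right (Ideal.subset_span ⟨x, y, rfl⟩)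

theorem p_fi (x : S) : p x ∈ fi L p q 0 :=
  Ideal.subset_span (Submodule.mem_sup_right ⟨x, by simp⟩)

theorem L_fi (c : K) {l : PR K N} (hl : l ∈ L) : l ∈ fi L p q c :=
  Ideal.subset_span (Submodule.mem_sup_left hl)

end Clq

open Clq in
/-- CLQ. -/
theorem t_clq (hFIP : FIPStmt) (hPSI : PSIStmt) : CLQStmt := by
  intro K _ _ N S _ _ _ L p q a x y h hc
  obtain ⟨Ψ, h0, hΨL, hΨp⟩ := hPSI K N S L p q h
  classical
  obtain ⟨hprime, hlin, -, -, -⟩ := hFIP K N S L p q h 0
  have : IsDomain (PR K N ⧸ fi L p q 0) := Ideal.Quotient.isDomain (fi L p q 0)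
  have hinj : Function.Injective (algebraMap K (PR K N ⧸ fi L p q 0)) :=
    FaithfulSMul.algebraMap_injective K (PR K N ⧸ fi L p q 0)
  -- the parametrisation kills the minors
  have hΨp' : ∀ z, Ψ (p z) = - (Polynomial.X * Ψ (q z)) := fun z =>
    eq_neg_of_add_eq_zero_left (hΨp z)
  have hmi : ∀ f ∈ mi L p q, Ψ f = 0 := by
    have : mi L p q ≤ RingHom.ker (Ψ : PR K N →+* Polynomial (PR K N ⧸ fi L p q 0)) := by
      apply mi_le
      · intro l hl
        exact hΨL l hl
      · intro u v
        change Ψ (p u * q v - p v * q u) = 0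
        rw [map_sub, map_mul, map_mul, hΨp', hΨp']
        ring
    intro f hf
    exact this hf
  have hstep : ∀ i, i < a → Ψ (y i) = - (Polynomial.X * Ψ (y (i + 1))) := by
    intro i hi
    have h1 := hΨL _ (hc.qy i hi)
    rw [map_sub, sub_eq_zero] at h1
    rw [hc.py i hi, hΨp', h1]
  have hpow : ∀ j, j ≤ a → Ψ (y (a - j)) = (-Polynomial.X) ^ j * Ψ (y a) := by
    intro j
    induction j with
    | zero => intro _; simp
    | succ j ih =>
      intro hj
      have h1 := hstep (a - (j + 1)) (by omega)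
      have h2 : a - (j + 1) + 1 = a - j := by omega
      rw [h2, ih (by omega)] at h1
      rw [h1, pow_succ]
      ring
  have hpow' : ∀ i, i ≤ a → Ψ (y i) = (-Polynomial.X) ^ (a - i) * Ψ (y a) := by
    intro i hi
    have := hpow (a - i) (by omega)
    have h2 : a - (a - i) = i := by omega
    rwa [h2] at this
  have hrange : LinearMap.range (p + (0 : K) • q) = LinearMap.range p := by
    rw [zero_smul, add_zero]
  have hya : Ideal.Quotient.mk (fi L p q 0) (y a) ≠ 0 := by
    rw [Ne, Ideal.Quotient.eq_zero_iff_mem]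
    intro h1
    have h2 := hlin (y a) (hc.yf a le_rfl) h1
    rw [hrange] at h2
    exact hc.ya h2
  have hΨya : (Ψ (y a)).coeff 0 ≠ 0 := by rwa [h0]
  -- the divisibility
  have hdvd : ∀ i, 1 ≤ i → i ≤ a → ∀ g ∈ pk L p q y i,
      (Polynomial.X : Polynomial (PR K N ⧸ fi L p q 0)) ^ (a - i + 1) ∣ Ψ g := by
    intro i hi1 hia g hg
    let J : Ideal (PR K N) :=
      { carrier := {g | (Polynomial.X : Polynomial (PR K N ⧸ fi L p q 0)) ^ (a - i + 1) ∣ Ψ g}
        add_mem' := by
          intro u v hu hv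
          change _ ∣ Ψ (u + v)
          rw [map_add]
          exact dvd_add hu hv
        zero_mem' := by
          change _ ∣ Ψ 0
          rw [map_zero]
          exact dvd_zero _
        smul_mem' := by
          intro u v hv
          change _ ∣ Ψ (u * v)
          rw [map_mul]
          obtain ⟨w, hw⟩ : (Polynomial.X : Polynomial (PR K N ⧸ fi L p q 0)) ^ (a - i + 1) ∣
            Ψ v := hv
          exact ⟨Ψ u * w, by rw [hw]; ring⟩ }
    have hle : pk L p q y i ≤ J := by
      unfold pk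
      refine sup_le ?_ (Ideal.span_le.2 ?_)
      · intro f hf
        change _ ∣ Ψ f
        rw [hmi f hf]
        exact dvd_zero _
      · rintro _ ⟨j, hj, rfl⟩
        have hj' : j < i := hj
        change _ ∣ Ψ (y j)
        rw [hpow' j (by omega), neg_pow]
        have h1 : (Polynomial.X : Polynomial (PR K N ⧸ fi L p q 0)) ^ (a - i + 1) ∣
            Polynomial.X ^ (a - j) := pow_dvd_pow _ (by omega)
        obtain ⟨w, hw⟩ := h1
        exact ⟨(-1) ^ (a - j) * w * Ψ (y a), by rw [hw]; ring⟩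
    exact hle hg
  have hcan : ∀ i, i ≤ a → ∀ f, (Polynomial.X : Polynomial (PR K N ⧸ fi L p q 0)) ^ (a - i + 1) ∣
      Ψ (y i * f) → f ∈ fi L p q 0 := by
    intro i hia f hd
    obtain ⟨g, hg⟩ := hd
    rw [map_mul, hpow' i hia, pow_succ, neg_pow] at hg
    have h1 : (Polynomial.X : Polynomial (PR K N ⧸ fi L p q 0)) ^ (a - i) *
        ((-1) ^ (a - i) * Ψ (y a) * Ψ f) = Polynomial.X ^ (a - i) * (Polynomial.X * g) := by
      rw [← mul_assoc (Polynomial.X ^ (a - i)) Polynomial.X g, ← hg]
      ring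
    have h2 := mul_left_cancel₀ (pow_ne_zero _ Polynomial.X_ne_zero) h1
    have h3 := congrArg (fun P => Polynomial.coeff P 0) h2
    simp only [Polynomial.coeff_X_mul_zero] at h3
    rw [Polynomial.mul_coeff_zero, Polynomial.mul_coeff_zero, h0 f] at h3
    rcases mul_eq_zero.1 h3 with h4 | h4
    · exfalso
      rcases mul_eq_zero.1 h4 with h5 | h5
      · have h6 : ((-1 : Polynomial (PR K N ⧸ fi L p q 0)) ^ (a - i)).coeff 0 = (-1) ^ (a - i) := by
          rw [← Polynomial.constantCoeff_apply, map_pow, map_neg, map_one]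
        rw [h6] at h5
        exact pow_ne_zero _ (neg_ne_zero.2 one_ne_zero) h5
      · exact hΨya h5
    · exact Ideal.Quotient.eq_zero_iff_mem.1 h4
  -- the ideals `fi c` and the evaluations
  have hev : ∀ (c : K) (f : PR K N), f ∈ fi L p q c →
      (Ψ f).IsRoot (algebraMap K (PR K N ⧸ fi L p q 0) c) := by
    intro c f hf
    have hle : fi L p q c ≤ RingHom.ker ((Polynomial.evalRingHom
        (algebraMap K (PR K N ⧸ fi L p q 0) c)).comp (Ψ : PR K N →+* Polynomial (PR K N ⧸ fi L p q 0))) := by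
      apply fi_le
      · intro l hl
        change Polynomial.eval (algebraMap K (PR K N ⧸ fi L p q 0) c) (Ψ l) = 0
        rw [hΨL l hl, Polynomial.eval_zero]
      · intro z
        change Polynomial.eval (algebraMap K (PR K N ⧸ fi L p q 0) c) (Ψ (p z + c • q z)) = 0
        have h1 := congrArg (Polynomial.eval (algebraMap K (PR K N ⧸ fi L p q 0) c)) (hΨp z)
        rw [Polynomial.eval_add, Polynomial.eval_mul, Polynomial.eval_X,
          Polynomial.eval_zero] at h1
        rw [map_add, map_smul, Polynomial.eval_add, Polynomial.eval_smul, Algebra.smul_def]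
        exact h1
    exact hle hf
  have hAA0 : ∀ f, AA L p q f → Ψ f = 0 := by
    rintro f ⟨Z, hZ⟩
    apply Polynomial.eq_zero_of_infinite_isRoot
    have h1 : ((algebraMap K (PR K N ⧸ fi L p q 0)) '' ((Z : Set K)ᶜ)).Infinite :=
      (Set.Finite.infinite_compl Z.finite_toSet).image hinj.injOn
    apply h1.mono
    rintro _ ⟨c, hc', rfl⟩
    exact hev c f (hZ c (by simpa using hc'))
  have hpk : ∀ i, pk L p q y (i + 1) ≤ pk L p q y i ⊔ Ideal.span {y i} := by
    intro i
    unfold pk
    refine sup_le (le_sup_left.trans le_sup_left) (Ideal.span_le.2 ?_)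
    rintro _ ⟨j, hj, rfl⟩
    have hj' : j < i + 1 := hj
    rcases Nat.lt_or_ge j i with h1 | h1
    · exact Ideal.mem_sup_left (Ideal.mem_sup_right (Ideal.subset_span ⟨j, h1, rfl⟩))
    · have : j = i := by omega
      rw [this]
      exact Ideal.mem_sup_right (Ideal.mem_span_singleton_self _)
  have hback : ∀ i, 1 ≤ i → i ≤ a → ∀ f ∈ fi L p q 0, y i * f ∈ pk L p q y i := by
    intro i hi1 hia f hf
    have hle : fi L p q 0 ≤ clI (pk L p q y i) (y i) := by
      apply fi_le
      · intro l hl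
        change y i * l ∈ pk L p q y i
        exact Ideal.mul_mem_left _ _ (Ideal.mem_sup_left (L_mi hl))
      · intro z
        rw [zero_smul, add_zero]
        change y i * p z ∈ pk L p q y i
        obtain ⟨j, rfl⟩ : ∃ j, i = j + 1 := ⟨i - 1, by omega⟩
        have h1 := hc.qy j (by omega)
        have h2 : y (j + 1) * p z = y j * q z - (p (x j) * q z - p z * q (x j)) -
            (q (x j) - y (j + 1)) * p z := by
          rw [hc.py j (by omega)]
          ring
        rw [h2]
        refine sub_mem (sub_mem ?_ ?_) ?_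
        · exact Ideal.mul_mem_right _ _ (Ideal.mem_sup_right (Ideal.subset_span
            ⟨j, Nat.lt_succ_self j, rfl⟩))
        · exact Ideal.mem_sup_left (minor_mi _ _)
        · exact Ideal.mul_mem_right _ _ (Ideal.mem_sup_left (L_mi h1))
    exact hle hf
  refine ⟨?_, ?_, ?_, ?_⟩
  · intro i hi1 hia f
    exact ⟨fun hf => hcan i hia f (hdvd i hi1 hia _ hf), hback i hi1 hia f⟩
  · intro f hf
    have h1 := h0 f
    rw [hAA0 f hf, Polynomial.coeff_zero] at h1
    exact Ideal.Quotient.eq_zero_iff_mem.1 h1.symm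
  · intro f hf i hi1 hia hfi
    obtain ⟨g, hg, w, hw, rfl⟩ := Submodule.mem_sup.1 (hpk i hfi)
    obtain ⟨u, rfl⟩ := Ideal.mem_span_singleton'.1 hw
    have h1 := hAA0 _ hf
    rw [map_add] at h1
    have h2 : Ψ (y i * u) = - Ψ g := by
      rw [mul_comm]
      exact eq_neg_of_add_eq_zero_right h1
    have h3 : u ∈ fi L p q 0 := by
      apply hcan i hia
      rw [h2, dvd_neg]
      exact hdvd i hi1 hia g hg
    rw [mul_comm u]
    exact add_mem hg (hback i hi1 hia u h3)
  · rintro f ⟨Z, hZ⟩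
    have hne : Ψ (y 0) ≠ 0 := by
      rw [hpow' 0 (Nat.zero_le _)]
      refine mul_ne_zero (pow_ne_zero _ (neg_ne_zero.2 Polynomial.X_ne_zero)) ?_
      intro h1
      apply hΨya
      rw [h1, Polynomial.coeff_zero]
    have hfin : (algebraMap K (PR K N ⧸ fi L p q 0) ⁻¹' {r | (Ψ (y 0)).IsRoot r}).Finite :=
      (Polynomial.finite_setOfPred_isRoot hne).preimage hinj.injOn
    refine ⟨Z ∪ hfin.toFinset, fun c hc' => ?_⟩
    rw [Finset.mem_union, not_or] at hc'
    obtain ⟨hc1, hc2⟩ := hc'
    obtain ⟨hprimec, -⟩ := hFIP K N S L p q h c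
    rcases hprimec.mem_or_mem (hZ c hc1) with h1 | h1
    · exfalso
      apply hc2
      rw [Set.Finite.mem_toFinset]
      exact hev c _ h1
    · exact h1

end Pool.EGD
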