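import Pool.Agent.H45.EGD.CML

/-!
# EGD, row FIP: the ideals `fi L p q c`
-/

set_option autoImplicit false

namespace Pool.EGD

open MvPolynomial Pool.EGH

namespace Fip

variable {K : Type} [Field K] {N : ℕ}

/-- An ideal generated by forms is homogeneous. -/
theorem hg_span (s : Set (PR K N)) (hs : ∀ f ∈ s, ∃ d, f ∈ fm K N d) : Hg (Ideal.span s) := by
  have key : ∀ f ∈ s, ∀ (z : PR K N) (d : ℕ), homogeneousComponent d (f * z) ∈ Ideal.span s := by
    intro f hf z d
    obtain ⟨e, he⟩ := hs f hf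
    rcases lt_or_ge d e with h1 | h1
    · rw [Pool.EGH.HGA.hc_mul_lt he z h1]
      exact zero_mem _
    · obtain ⟨i, rfl⟩ := Nat.exists_eq_add_of_le h1
      rw [Pool.EGH.HGA.hc_mul he z i]
      exact Ideal.mul_mem_right _ _ (Ideal.subset_span hf)
  intro f hf
  have h2 : ∀ z : PR K N, ∀ d : ℕ, homogeneousComponent d (f * z) ∈ Ideal.span s := by
    induction hf using Submodule.span_induction with
    | mem x hx => exact fun z d => key x hx z d
    | zero =>
      intro z d
      rw [zero_mul, map_zero]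
      exact zero_mem _
    | add x y _ _ h1 h2 =>
      intro z d
      rw [add_mul, map_add]
      exact add_mem (h1 z d) (h2 z d)
    | smul a x _ h1 =>
      intro z d
      rw [smul_eq_mul, mul_comm a x, mul_assoc]
      exact h1 (a * z) d
  intro d
  have h3 := h2 1 d
  rwa [mul_one] at h3

variable {S : Type} [AddCommGroup S] [Module K S] {L : Submodule K (PR K N)}
  {p q : S →ₗ[K] PR K N}

theorem rank_sup [Module.Finite K S] (h : Pc L p q) (c : K) :
    Module.finrank K ↥(L ⊔ LinearMap.range (p + c • q)) =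
      Module.finrank K L + Module.finrank K S := by
  have : Module.Finite K ↥(fm K N 1) := h_fin K N 1
  have : Module.Finite K L := Submodule.finiteDimensional_of_le h.hL
  have hinj : ∀ x, (p + c • q) x ∈ L → x = 0 := by
    intro x hx
    rcases h.inj 1 c x (by simpa using hx) with h1 | h1
    · exact h1
    · exact absurd h1.1 one_ne_zero
  have h1 := Submodule.finrank_sup_add_finrank_inf_eq L (LinearMap.range (p + c • q))
  have h2 : L ⊓ LinearMap.range (p + c • q) = ⊥ := by
    rw [Submodule.eq_bot_iff]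
    rintro _ ⟨hx1, ⟨x, rfl⟩⟩
    rw [hinj x hx1, map_zero]
  have h3 : Module.finrank K ↥(LinearMap.range (p + c • q)) = Module.finrank K S := by
    apply LinearMap.finrank_range_of_inj
    rw [← LinearMap.ker_eq_bot, LinearMap.ker_eq_bot']
    intro x hx
    exact hinj x (by rw [hx]; exact zero_mem _)
  rw [h2, finrank_bot, h3] at h1
  omega

theorem le_fm (h : Pc L p q) (c : K) : L ⊔ LinearMap.range (p + c • q) ≤ fm K N 1 := by
  refine sup_le h.hL ?_
  rintro _ ⟨x, rfl⟩
  exact add_mem (h.hp x) (Submodule.smul_mem _ c (h.hq x))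

theorem rank_le [Module.Finite K S] (h : Pc L p q) (c : K) :
    Module.finrank K ↥(L ⊔ LinearMap.range (p + c • q)) ≤ N := by
  have : Module.Finite K ↥(fm K N 1) := h_fin K N 1
  have h1 := Submodule.finrank_mono (le_fm h c)
  rwa [Cml.fr1] at h1

end Fip

open Fip in
/-- FIP. -/
theorem t_fip : FIPStmt := by
  intro K _ N S _ _ _ L p q h c
  have h1 := le_fm h c
  have h2 := rank_sup h c
  have h3 := rank_le h c
  refine ⟨?_, ?_, ?_, ?_, ?_⟩
  · obtain ⟨π, -, hπ⟩ := Pool.EGC.TR1x.constr (n := N - Module.finrank K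
      ↥(L ⊔ LinearMap.range (p + c • q))) (L ⊔ LinearMap.range (p + c • q)) h1 (by omega)
    unfold fi
    rw [← hπ]
    exact RingHom.ker_isPrime _
  · exact (h_lin K N _ h1).2.1
  · intro r hr
    exact t_cml K N r _ h1 (by rw [h2]; exact hr)
  · unfold mi
    refine sup_le (Ideal.span_mono fun x hx => Submodule.mem_sup_left hx) (Ideal.span_le.2 ?_)
    rintro _ ⟨x, y, rfl⟩
    have hm : ∀ z, (p + c • q) z ∈ fi L p q c := fun z =>
      Ideal.subset_span (Submodule.mem_sup_right ⟨z, rfl⟩)
    have h4 : p x * q y - p y * q x = (p + c • q) x * q y - (p + c • q) y * q x := by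
      rw [LinearMap.add_apply, LinearMap.add_apply, LinearMap.smul_apply, LinearMap.smul_apply,
        MvPolynomial.smul_eq_C_mul, MvPolynomial.smul_eq_C_mul]
      ring
    rw [h4]
    exact sub_mem (Ideal.mul_mem_right _ _ (hm x)) (Ideal.mul_mem_right _ _ (hm y))
  · unfold mi
    refine (h_hga K N).2.2.1 _ _ (hg_span _ fun f hf => ⟨1, h.hL hf⟩) (hg_span _ ?_)
    rintro _ ⟨x, y, rfl⟩
    refine ⟨2, sub_mem ?_ ?_⟩
    · exact MvPolynomial.IsHomogeneous.mul (m := 1) (n := 1) (h.hp x) (h.hq y)
    · exact MvPolynomial.IsHomogeneous.mul (m := 1) (n := 1) (h.hp y) (h.hq x)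

end Pool.EGD
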