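import Pool.Agent.H45.EGD.S1

/-!
# EGD, row PSI: the parametrisation
-/

set_option autoImplicit false

namespace Pool.EGD

open MvPolynomial Pool.EGH

namespace Psi

variable {K : Type} [Field K] {N : ℕ}

/-- The coefficients of a linear form. -/
noncomputable def vc (w : PR K N) : Fin N → K := fun i => coeff (Finsupp.single i 1) w

theorem vc_sum (c : Fin N → K) : vc (∑ i, c i • (X i : PR K N)) = c := by
  funext j
  unfold vc
  rw [coeff_sum, Finset.sum_eq_single j]
  · rw [coeff_smul, coeff_X]
    simp
  · intro i _ hi
    rw [coeff_smul, coeff_X, if_neg, smul_zero]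
    intro h
    exact hi (Finsupp.single_left_injective one_ne_zero h)
  · intro h
    exact absurd (Finset.mem_univ j) h

theorem eq_sum {w : PR K N} (hw : w ∈ fm K N 1) : w = ∑ i, vc w i • (X i : PR K N) := by
  have h1 : w ∈ Submodule.span K (Set.range (X : Fin N → PR K N)) := by
    rw [← homogeneousSubmodule_one_eq_span_X]; exact hw
  obtain ⟨c, hc⟩ := (Submodule.mem_span_range_iff_exists_fun K).1 h1
  rw [← hc, vc_sum]

theorem vc_add (u w : PR K N) : vc (u + w) = vc u + vc w := by
  funext i
  simp [vc]

theorem vc_zero : vc (0 : PR K N) = 0 := by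
  funext i
  simp [vc]

theorem X_fm (i : Fin N) : (X i : PR K N) ∈ fm K N 1 := isHomogeneous_X K i

variable (F : Ideal (PR K N))

/-- The linear form with given coefficients. -/
noncomputable def lf (u : Fin N → Polynomial K) : Polynomial (PR K N ⧸ F) :=
  ∑ j, Polynomial.map (algebraMap K (PR K N ⧸ F)) (u j) *
    Polynomial.C (Ideal.Quotient.mk F (X j))

theorem lf_add (u v : Fin N → Polynomial K) : lf F (u + v) = lf F u + lf F v := by
  unfold lf
  rw [← Finset.sum_add_distrib]
  refine Finset.sum_congr rfl fun j _ => ?_
  rw [Pi.add_apply, Polynomial.map_add, add_mul]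

theorem lf_smul (a : Polynomial K) (u : Fin N → Polynomial K) :
    lf F (a • u) = Polynomial.map (algebraMap K (PR K N ⧸ F)) a * lf F u := by
  unfold lf
  rw [Finset.mul_sum]
  refine Finset.sum_congr rfl fun j _ => ?_
  rw [Pi.smul_apply, smul_eq_mul, Polynomial.map_mul, mul_assoc]

theorem lf_C {w : PR K N} (hw : w ∈ fm K N 1) :
    lf F (fun i => Polynomial.C (vc w i)) = Polynomial.C (Ideal.Quotient.mk F w) := by
  unfold lf
  have h1 : Ideal.Quotient.mk F w = ∑ i, algebraMap K (PR K N ⧸ F) (vc w i) *
      Ideal.Quotient.mk F (X i) := by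
    conv_lhs => rw [eq_sum hw]
    rw [map_sum]
    refine Finset.sum_congr rfl fun i _ => ?_
    rw [← Algebra.smul_def]
    rfl
  rw [h1, map_sum]
  refine Finset.sum_congr rfl fun i _ => ?_
  rw [Polynomial.map_C, map_mul]

/-- The parametrisation attached to a matrix. -/
noncomputable def ps (D : Matrix (Fin N) (Fin N) (Polynomial K)) :
    PR K N →ₐ[K] Polynomial (PR K N ⧸ F) :=
  aeval (fun i => lf F (D.mulVec (fun j => Polynomial.C (vc (X i : PR K N) j))))

theorem ps_lin (D : Matrix (Fin N) (Fin N) (Polynomial K)) {w : PR K N} (hw : w ∈ fm K N 1) :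
    ps F D w = lf F (D.mulVec (fun j => Polynomial.C (vc w j))) := by
  let g : PR K N →ₗ[K] Polynomial (PR K N ⧸ F) :=
    { toFun := fun v => lf F (D.mulVec (fun j => Polynomial.C (vc v j)))
      map_add' := by
        intro u v
        rw [← lf_add, ← Matrix.mulVec_add]
        congr 2
        funext j
        rw [vc_add]
        simp
      map_smul' := by
        intro a u
        have : (fun j => Polynomial.C (vc (a • u) j)) =
            (Polynomial.C a : Polynomial K) • (fun j => Polynomial.C (vc u j)) := by
          funext j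
          simp [vc]
        rw [this, Matrix.mulVec_smul, lf_smul, Polynomial.map_C, RingHom.id_apply,
          Algebra.smul_def]
        rfl }
  change ps F D w = g w
  rw [eq_sum hw, map_sum, map_sum]
  refine Finset.sum_congr rfl fun i _ => ?_
  rw [map_smul, map_smul]
  congr 1
  unfold ps
  rw [aeval_X]
  rfl

end Psi

open Psi in
/-- PSI. -/
theorem t_psi : PSIStmt := by
  intro K _ N S _ _ _ L p q h
  set F := fi L p q 0 with hF
  have hFL : ∀ l ∈ L, l ∈ F := fun l hl => Ideal.subset_span (Submodule.mem_sup_left hl)
  have hFp : ∀ x, p x ∈ F := fun x => Ideal.subset_span (Submodule.mem_sup_right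
    ⟨x, by simp⟩)
  -- the left inverse of `p` modulo `L`
  obtain ⟨g, hg⟩ := LinearMap.exists_leftInverse_of_injective (L.mkQ ∘ₗ p) (by
    rw [LinearMap.ker_eq_bot']
    intro x hx
    rw [LinearMap.comp_apply, Submodule.mkQ_apply, Submodule.Quotient.mk_eq_zero] at hx
    rcases h.inj 1 0 x (by simpa using hx) with h1 | h1
    · exact h1
    · exact absurd h1.1 one_ne_zero)
  let ψ : PR K N →ₗ[K] S := g ∘ₗ L.mkQ
  have hψp : ∀ x, ψ (p x) = x := fun x => LinearMap.congr_fun hg x
  have hψL : ∀ l ∈ L, ψ l = 0 := by
    intro l hl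
    change g (L.mkQ l) = 0
    rw [Submodule.mkQ_apply, (Submodule.Quotient.mk_eq_zero L).2 hl, map_zero]
  let M : Matrix (Fin N) (Fin N) K := Matrix.of fun j i => vc (q (ψ (X i))) j
  have hM : ∀ w ∈ fm K N 1, M.mulVec (vc w) = vc (q (ψ w)) := by
    intro w hw
    funext j
    have h1 : q (ψ w) = ∑ i, vc w i • q (ψ (X i)) := by
      conv_lhs => rw [eq_sum hw]
      rw [map_sum, map_sum]
      refine Finset.sum_congr rfl fun i _ => ?_
      rw [map_smul, map_smul]
    rw [h1]
    simp only [Matrix.mulVec, dotProduct, vc, coeff_sum, coeff_smul, smul_eq_mul]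
    refine Finset.sum_congr rfl fun i _ => ?_
    rw [mul_comm]
    rfl
  let B : Matrix (Fin N) (Fin N) (Polynomial K) :=
    1 + (Polynomial.X : Polynomial K) • M.map Polynomial.C
  have hB : ∀ w ∈ fm K N 1, B.mulVec (fun j => Polynomial.C (vc w j)) =
      (fun j => Polynomial.C (vc w j)) +
        (Polynomial.X : Polynomial K) • (fun j => Polynomial.C (vc (q (ψ w)) j)) := by
    intro w hw
    change (1 + (Polynomial.X : Polynomial K) • M.map Polynomial.C).mulVec _ = _
    rw [Matrix.add_mulVec, Matrix.one_mulVec, Matrix.smul_mulVec]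
    congr 2
    funext j
    rw [← hM w hw]
    simp only [Matrix.mulVec, dotProduct, Matrix.map_apply, map_sum, map_mul]
  refine ⟨ps F B.adjugate, ?_, ?_, ?_⟩
  · -- the constant coefficient
    have key : (Polynomial.constantCoeff : Polynomial (PR K N ⧸ F) →+* _).comp
        (ps F B.adjugate : PR K N →+* Polynomial (PR K N ⧸ F)) = Ideal.Quotient.mk F := by
      apply MvPolynomial.ringHom_ext
      · intro c
        rw [RingHom.comp_apply]
        have h1 : (ps F B.adjugate : PR K N →+* Polynomial (PR K N ⧸ F)) (C c) =
            algebraMap K _ c := (ps F B.adjugate).commutes c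
        rw [h1, Polynomial.algebraMap_apply, Polynomial.constantCoeff_apply,
          Polynomial.coeff_C_zero]
        rfl
      · intro i
        rw [RingHom.comp_apply]
        have h1 : (ps F B.adjugate : PR K N →+* Polynomial (PR K N ⧸ F)) (X i) =
            ps F B.adjugate (X i) := rfl
        rw [h1, ps_lin F _ (X_fm i), Polynomial.constantCoeff_apply]
        have h2 : B.adjugate.map (Polynomial.constantCoeff) = (1 : Matrix (Fin N) (Fin N) K) := by
          have h3 := RingHom.map_adjugate (Polynomial.constantCoeff : Polynomial K →+* K) B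
          have h4 : (Polynomial.constantCoeff : Polynomial K →+* K).mapMatrix B = 1 := by
            change (Polynomial.constantCoeff : Polynomial K →+* K).mapMatrix
              (1 + (Polynomial.X : Polynomial K) • M.map Polynomial.C) = 1
            rw [map_add, map_one]
            have : (Polynomial.constantCoeff : Polynomial K →+* K).mapMatrix
                ((Polynomial.X : Polynomial K) • M.map Polynomial.C) = 0 := by
              ext a b
              simp
            rw [this, add_zero]
          rw [h4, Matrix.adjugate_one] at h3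
          exact h3
        unfold lf
        rw [Polynomial.finsetSum_coeff]
        have h5 : ∀ j, (Polynomial.map (algebraMap K (PR K N ⧸ F))
            (B.adjugate.mulVec (fun k => Polynomial.C (vc (X i : PR K N) k)) j) *
            Polynomial.C (Ideal.Quotient.mk F (X j))).coeff 0 =
            algebraMap K (PR K N ⧸ F) (vc (X i : PR K N) j) * Ideal.Quotient.mk F (X j) := by
          intro j
          rw [Polynomial.coeff_mul_C, Polynomial.coeff_map]
          congr 2
          have h6 : (B.adjugate.mulVec (fun k => Polynomial.C (vc (X i : PR K N) k)) j).coeff 0 =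
              ((B.adjugate.map (Polynomial.constantCoeff)).mulVec (vc (X i : PR K N))) j := by
            simp [Matrix.mulVec, dotProduct, Polynomial.finsetSum_coeff]
          rw [h6, h2, Matrix.one_mulVec]
        rw [Finset.sum_congr rfl fun j _ => h5 j]
        conv_rhs => rw [eq_sum (X_fm i), map_sum]
        refine Finset.sum_congr rfl fun j _ => ?_
        rw [← Algebra.smul_def]
        rfl
    intro f
    have := congrArg (fun φ => φ f) key
    exact this
  · intro l hl
    have hl1 : l ∈ fm K N 1 := h.hL hl
    rw [ps_lin F _ hl1]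
    have h1 := hB l hl1
    rw [hψL l hl, map_zero, vc_zero] at h1
    have h2 : (fun j => Polynomial.C (vc l j)) = B.mulVec (fun j => Polynomial.C (vc l j)) := by
      rw [h1]
      funext j
      simp
    rw [h2, Matrix.mulVec_mulVec, Matrix.adjugate_mul, Matrix.smul_mulVec,
      Matrix.one_mulVec, lf_smul, lf_C F hl1, Ideal.Quotient.eq_zero_iff_mem.2 (hFL l hl)]
    simp
  · intro x
    have hp1 := h.hp x
    have hq1 := h.hq x
    rw [ps_lin F _ hp1, ps_lin F _ hq1]
    have h1 := hB (p x) hp1
    rw [hψp x] at h1
    have h2 : (Polynomial.X : Polynomial (PR K N ⧸ F)) =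
        Polynomial.map (algebraMap K (PR K N ⧸ F)) Polynomial.X := by simp
    rw [h2, ← lf_smul, ← Matrix.mulVec_smul, ← lf_add, ← Matrix.mulVec_add, ← h1,
      Matrix.mulVec_mulVec, Matrix.adjugate_mul, Matrix.smul_mulVec,
      Matrix.one_mulVec, lf_smul, lf_C F hp1, Ideal.Quotient.eq_zero_iff_mem.2 (hFp x)]
    simp

end Pool.EGD
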