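import Pool.Agent.H45.EGD.DEP
import Pool.Agent.H45.EGD.PSI
import Pool.Agent.H45.EGD.CLQ
import Pool.Agent.H45.EGD.CHN
import Pool.Agent.H45.EGD.FIP
import Pool.Agent.H62.EGD.UPB
import Pool.Agent.H62.EGD.DUA
import Pool.Agent.H70.EGD.PG1
import Pool.Agent.H70.EGD.PEN
import Pool.Agent.H70.EGD.MNA
import Pool.Agent.H70.EGD.MNB
import Pool.Agent.H70.EGD.PKT
import Pool.Agent.H70.EGD.PKF
import Pool.Agent.H8.EGD.SCA
import Pool.Agent.H8.EGD.SCB

/-!
# EGD: the theorems on pencils of forms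
-/

set_option autoImplicit false

namespace Pool.EGD

theorem d_clq : CLQStmt := t_clq t_fip t_psi

theorem d_sca : SCAStmt := t_sca t_fip t_chn d_clq t_pkt

theorem d_scb : SCBStmt := t_scb t_fip t_chn d_clq t_pkt d_sca t_cma t_cmc

theorem d_pkf : PKFStmt := t_pkf d_scb t_cmq

/-- Growth of pencils of forms of any degree modulo a complete intersection of quadrics. -/
theorem d_pen : PENStmt := t_pen d_pkf t_pg1

theorem mainA : MainAStmt := t_mna (t_dua t_pg1 d_pen) t_ma2

theorem mainB : MainBStmt := t_mnb (t_def t_pg1 d_pen) t_upb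

end Pool.EGD
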