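import Pool.Agent.H45.EGD.DEP

/-!
# EGD, rows CML, CMQ, FIP
-/

set_option autoImplicit false

namespace Pool.EGD

open MvPolynomial Pool.EGH

namespace Cml

variable {K : Type} [Field K] {N : ℕ}

theorem fr1 (N : ℕ) : Module.finrank K ↥(fm K N 1) = N := Pool.EGC.TR1x.fr1 N

theorem dp_lin (r : ℕ) : ∀ (L : Submodule K (PR K N)), L ≤ fm K N 1 →
    Module.finrank K L + r = N → Dp r (Ideal.span (L : Set (PR K N))) := by
  induction r with
  | zero => intro L _ _; exact Dp.zero _
  | succ r ih =>
    intro L hL hk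
    obtain ⟨-, -, h3⟩ := h_lin K N L hL
    have : Module.Finite K ↥(fm K N 1) := h_fin K N 1
    have : Module.Finite K L := Submodule.finiteDimensional_of_le hL
    have hlt : L < fm K N 1 := by
      refine lt_of_le_of_ne hL ?_
      rintro rfl
      rw [fr1] at hk
      omega
    obtain ⟨l, hl, hlL⟩ := SetLike.exists_of_lt hlt
    refine Dp.succ hl (h3 l hl hlL) ?_
    have h4 : Ideal.span (L : Set (PR K N)) ⊔ Ideal.span {l} =
        Ideal.span ((L ⊔ Submodule.span K {l} : Submodule K (PR K N)) : Set (PR K N)) := by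
      apply le_antisymm
      · refine sup_le (Ideal.span_mono fun x hx => Submodule.mem_sup_left hx) ?_
        rw [Ideal.span_singleton_le_iff_mem]
        exact Ideal.subset_span (Submodule.mem_sup_right (Submodule.mem_span_singleton_self l))
      · rw [Ideal.span_le]
        intro x hx
        rw [SetLike.mem_coe, Submodule.mem_sup] at hx
        obtain ⟨u, hu, v, hv, rfl⟩ := hx
        obtain ⟨c, rfl⟩ := Submodule.mem_span_singleton.1 hv
        refine add_mem (Ideal.mem_sup_left (Ideal.subset_span hu)) (Ideal.mem_sup_right ?_)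
        rw [← C_mul']
        exact Ideal.mul_mem_left _ _ (Ideal.mem_span_singleton_self l)
    rw [h4]
    apply ih
    · exact sup_le hL ((Submodule.span_singleton_le_iff_mem _ _).2 hl)
    · have hl0 : l ≠ 0 := by
        rintro rfl
        exact hlL (zero_mem _)
      have h5 := Submodule.finrank_sup_add_finrank_inf_eq L (Submodule.span K {l})
      have h6 : L ⊓ Submodule.span K {l} = ⊥ := by
        rw [Submodule.eq_bot_iff]
        rintro x ⟨hx1, hx2⟩
        obtain ⟨c, rfl⟩ := Submodule.mem_span_singleton.1 hx2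
        by_contra hne
        have hc : c ≠ 0 := by
          rintro rfl
          exact hne (zero_smul _ _)
        apply hlL
        have h7 : l = c⁻¹ • (c • l) := by rw [smul_smul, inv_mul_cancel₀ hc, one_smul]
        rw [h7]
        exact Submodule.smul_mem _ _ hx1
      rw [h6, finrank_bot, finrank_span_singleton hl0] at h5
      omega

theorem hf_zero_mem {J : Ideal (PR K N)} {j : ℕ} (h : hf J j = 0) : ∀ f ∈ fm K N j, f ∈ J := by
  intro f hf'
  have : Module.Finite K ↥(fm K N j) := h_fin K N j
  have h1 : Module.finrank K ↥(fm K N j) ≤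
      Module.finrank K ↥(J.restrictScalars K ⊓ fm K N j) := Nat.sub_eq_zero_iff_le.1 h
  have h2 : J.restrictScalars K ⊓ fm K N j = fm K N j :=
    Submodule.eq_of_le_of_finrank_le inf_le_right h1
  have h3 : f ∈ J.restrictScalars K ⊓ fm K N j := by rw [h2]; exact hf'
  exact h3.1

end Cml

open Cml

/-- CML. -/
theorem t_cml : CMLStmt := by
  intro K _ N r L hL hk
  obtain ⟨h1, -, -⟩ := h_lin K N L hL
  refine ⟨(h_hga K N).2.2.2 _ _ _ h1, dp_lin r L hL hk, ?_⟩
  intro j hj
  have h2 := h_hsr K N _ _ _ h1
  rw [pow_zero, mul_one] at h2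
  have h3 : hs (Ideal.span (L : Set (PR K N))) * (1 - PowerSeries.X) ^ r = 1 := by
    have hne : ((1 : PowerSeries ℤ) - PowerSeries.X) ^ (Module.finrank K L) ≠ 0 := by
      apply pow_ne_zero
      intro h
      have := congrArg (PowerSeries.coeff 0) h
      simp at this
    apply mul_right_cancel₀ hne
    rw [one_mul, mul_assoc, ← pow_add, Nat.add_comm r, hk]
    exact h2
  rw [h3, PowerSeries.coeff_one, if_neg (by omega)]

/-- CMQ. -/
theorem t_cmq : CMQStmt := by
  intro K _ _ N r
  induction r with
  | zero =>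
    intro t J V h _ _ _ j hj f hf'
    have h1 := h.tp j (by omega)
    rw [pow_zero, mul_one] at h1
    unfold hs at h1
    rw [PowerSeries.coeff_mk] at h1
    exact Ideal.mem_sup_left (hf_zero_mem (by exact_mod_cast h1) f hf')
  | succ r ih =>
    intro t J V h hV hV0 hm j hj f hf'
    obtain ⟨m, hm⟩ := hm
    obtain ⟨q, hq, -, hr⟩ := h_rqf K N m J V ⊥ h.hg (Dep.ns_of_dp h.dp) hV
      (bot_lt_iff_ne_bot.2 hV0) hm
    have h1 := t_cmb K N r t J q h (hV hq) hr
    have h2 : J ⊔ Ideal.span {q} ⊔ Ideal.span (V : Set (PR K N)) =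
        J ⊔ Ideal.span (V : Set (PR K N)) := by
      rw [sup_assoc]
      congr 1
      rw [sup_eq_right, Ideal.span_singleton_le_iff_mem]
      exact Ideal.subset_span hq
    have h3 := ih (t + 1) (J ⊔ Ideal.span {q}) V h1 hV hV0 ⟨m, by rw [h2]; exact hm⟩ j
      (by omega) f hf'
    rwa [h2] at h3

end Pool.EGD
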