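import Pool.Agent.H45.EGD.S1

/-!
# EGD, rows EXS, CRL, DPI, DPX, CMA, CMB, CMC: depth and Cohen-Macaulay quotients
-/

set_option autoImplicit false

namespace Pool.EGD

open MvPolynomial Pool.EGH

namespace Dep

variable {K : Type} [Field K] {N : ℕ}

/-- An element killed by the linear forms is killed by the forms of positive degree. -/
theorem kill_of_lin (I : Ideal (PR K N)) (z : PR K N) (hz : ∀ l ∈ fm K N 1, l * z ∈ I)
    {a : ℕ} (ha : 1 ≤ a) {f : PR K N} (hf : f ∈ fm K N a) : f * z ∈ I := by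
  have h1 : ∀ i, (X i : PR K N) ∈ clI I z := by
    intro i
    change z * X i ∈ I
    rw [mul_comm]
    exact hz _ (RLFaux.X_mem i)
  have h2 : f ∈ clI I z := by
    rw [f.as_sum]
    apply Ideal.sum_mem
    intro d hd
    have hdeg : d ≠ 0 := by
      rintro rfl
      have h3 := (mem_homogeneousSubmodule a f).1 hf (mem_support_iff.1 hd)
      simp at h3
      omega
    obtain ⟨i, hi⟩ := Finsupp.ne_iff.1 hdeg
    have hXi : (X i : PR K N) ∣ monomial d (coeff d f) := by
      rw [X_dvd_monomial]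
      right
      simpa using hi
    exact Ideal.mem_of_dvd _ hXi (h1 i)
  have h3 : z * f ∈ I := h2
  rwa [mul_comm] at h3

theorem mem_sg {I : Ideal (PR K N)} {f z : PR K N} :
    z ∈ I ⊔ Ideal.span {f} ↔ ∃ j ∈ I, ∃ w, z = j + f * w := by
  constructor
  · intro h
    obtain ⟨j, hj, u, hu, rfl⟩ := Submodule.mem_sup.1 h
    obtain ⟨w, rfl⟩ := Ideal.mem_span_singleton'.1 hu
    exact ⟨j, hj, w, by rw [mul_comm]⟩
  · rintro ⟨j, hj, w, rfl⟩
    exact add_mem (Ideal.mem_sup_left hj)
      (Ideal.mem_sup_right (Ideal.mul_mem_right _ _ (Ideal.mem_span_singleton_self f)))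

theorem ns_of_dp {r : ℕ} {J : Ideal (PR K N)} (h : Dp (r + 1) J) : NS J := by
  cases h with
  | succ hl hr _ =>
    intro z hz
    exact hr z (hz _ hl)

/-- An associated prime of one of two ideals avoids a linear form. -/
theorem two [Infinite K] (J J' : Ideal (PR K N)) {l l' : PR K N} (h : Rg J l) (h' : Rg J' l') :
    ∃ c : K, Rg J (l + c • l') ∧ Rg J' (l + c • l') := by
  classical
  have key : ∀ (I : Ideal (PR K N)) (u v : PR K N), Rg I u →
      ({c : K | ¬ Rg I (u + c • v)} : Set K).Finite ∧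
      ({c : K | ¬ Rg I (c • u + v)} : Set K).Finite := by
    intro I u v hu
    have hfin := associatedPrimes.finite (PR K N) (PR K N ⧸ I)
    have hzd : ∀ w : PR K N, ¬ Rg I w →
        ∃ P ∈ associatedPrimes (PR K N) (PR K N ⧸ I), w ∈ P := by
      intro w hw
      unfold Rg at hw
      push Not at hw
      obtain ⟨z, hz, hzI⟩ := hw
      have h3 : w ∈ ({r : PR K N | ∃ x : PR K N ⧸ I, x ≠ 0 ∧ r • x = 0} : Set _) := by
        refine ⟨Ideal.Quotient.mk I z, ?_, ?_⟩
        · rwa [Ne, Ideal.Quotient.eq_zero_iff_mem]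
        · show Ideal.Quotient.mk I (w * z) = 0
          rw [Ideal.Quotient.eq_zero_iff_mem]
          exact hz
      rw [← biUnion_associatedPrimes_eq_zero_divisors (PR K N) (PR K N ⧸ I)] at h3
      simp only [Set.mem_iUnion] at h3
      obtain ⟨P, hP, hwP⟩ := h3
      exact ⟨P, hP, hwP⟩
    have huP : ∀ P ∈ associatedPrimes (PR K N) (PR K N ⧸ I), u ∉ P := by
      intro P hP huP
      have h3 : u ∈ ⋃ p ∈ associatedPrimes (PR K N) (PR K N ⧸ I), (p : Set (PR K N)) := by
        simp only [Set.mem_iUnion]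
        exact ⟨P, hP, huP⟩
      rw [biUnion_associatedPrimes_eq_zero_divisors (PR K N) (PR K N ⧸ I)] at h3
      obtain ⟨x, hx, hx2⟩ := h3
      obtain ⟨z, rfl⟩ := Ideal.Quotient.mk_surjective x
      apply hx
      rw [Ideal.Quotient.eq_zero_iff_mem]
      apply hu
      have h4 : Ideal.Quotient.mk I (u * z) = 0 := hx2
      rwa [Ideal.Quotient.eq_zero_iff_mem] at h4
    constructor
    · refine (hfin.biUnion (t := fun P => {c : K | u + c • v ∈ P}) ?_).subset ?_
      · intro P hP
        apply Set.Subsingleton.finite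
        intro c hc d hd
        by_contra hne
        have h5 : (c - d) • v ∈ P := by
          have : (c - d) • v = (u + c • v) - (u + d • v) := by
            rw [sub_smul]; abel
          rw [this]
          exact sub_mem hc hd
        have h6 : v ∈ P := by
          have h7 : v = (c - d)⁻¹ • ((c - d) • v) := by
            rw [smul_smul, inv_mul_cancel₀ (sub_ne_zero.2 hne), one_smul]
          rw [h7]
          exact (P.restrictScalars K).smul_mem _ h5
        apply huP P hP
        have h8 : u = (u + c • v) - c • v := by abel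
        rw [h8]
        exact sub_mem hc ((P.restrictScalars K).smul_mem _ h6)
      · intro c hc
        obtain ⟨P, hP, h5⟩ := hzd _ hc
        simp only [Set.mem_iUnion]
        exact ⟨P, hP, h5⟩
    · refine (hfin.biUnion (t := fun P => {c : K | c • u + v ∈ P}) ?_).subset ?_
      · intro P hP
        apply Set.Subsingleton.finite
        intro c hc d hd
        by_contra hne
        have h5 : (c - d) • u ∈ P := by
          have : (c - d) • u = (c • u + v) - (d • u + v) := by
            rw [sub_smul]; abel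
          rw [this]
          exact sub_mem hc hd
        apply huP P hP
        have h7 : u = (c - d)⁻¹ • ((c - d) • u) := by
          rw [smul_smul, inv_mul_cancel₀ (sub_ne_zero.2 hne), one_smul]
        rw [h7]
        exact (P.restrictScalars K).smul_mem _ h5
      · intro c hc
        obtain ⟨P, hP, h5⟩ := hzd _ hc
        simp only [Set.mem_iUnion]
        exact ⟨P, hP, h5⟩
  have f1 := (key J l l' h).1
  have f2 := (key J' l' l h').2
  obtain ⟨c, hc⟩ := (f1.union f2).infinite_compl.nonempty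
  simp only [Set.mem_compl_iff, Set.mem_union, Set.mem_ofPred_eq, not_or, not_not] at hc
  exact ⟨c, hc.1, by rw [add_comm]; exact hc.2⟩

end Dep

open Dep

/-- EXS. -/
theorem t_exs : EXSStmt := by
  intro K _ N a b J f g ha hb hf hg hrf hrg hns z hz
  have h1 := kill_of_lin (J ⊔ Ideal.span {g}) z hz ha hf
  obtain ⟨j, hj, y, hy⟩ := mem_sg.1 h1
  have h2 : y ∈ J ⊔ Ideal.span {f} := by
    apply hns
    intro l hl
    obtain ⟨j', hj', w, hw⟩ := mem_sg.1 (hz l hl)
    have h3 : g * (l * y - f * w) ∈ J := by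
      have h4 : g * (l * y - f * w) = f * j' - l * j := by
        have h5 : g * y = f * z - j := by rw [hy]; ring
        have h6 : g * w = l * z - j' := by rw [hw]; ring
        calc g * (l * y - f * w) = l * (g * y) - f * (g * w) := by ring
          _ = l * (f * z - j) - f * (l * z - j') := by rw [h5, h6]
          _ = f * j' - l * j := by ring
      rw [h4]
      exact sub_mem (Ideal.mul_mem_left _ _ hj') (Ideal.mul_mem_left _ _ hj)
    exact mem_sg.2 ⟨l * y - f * w, hrg _ h3, w, by ring⟩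
  obtain ⟨j'', hj'', y', hy'⟩ := mem_sg.1 h2
  have h7 : f * (z - g * y') ∈ J := by
    have h8 : f * (z - g * y') = j + g * j'' := by
      calc f * (z - g * y') = f * z - g * (f * y') := by ring
        _ = (j + g * y) - g * (y - j'') := by rw [hy, hy']; ring
        _ = j + g * j'' := by ring
    rw [h8]
    exact add_mem hj (Ideal.mul_mem_left _ _ hj'')
  exact mem_sg.2 ⟨z - g * y', hrf _ h7, y', by ring⟩

/-- CRL. -/
theorem t_crl : CRLStmt := by
  intro K _ _ N J J' hJ hJ' hn hn'
  obtain ⟨l, hl, hr⟩ := h_rlf K N J hJ hn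
  obtain ⟨l', hl', hr'⟩ := h_rlf K N J' hJ' hn'
  obtain ⟨c, h1, h2⟩ := two J J' hr hr'
  exact ⟨_, add_mem hl (Submodule.smul_mem _ c hl'), h1, h2⟩

/-- DPI. -/
theorem t_dpi : DPIStmt := by
  intro K _ _ N r
  induction r with
  | zero =>
    intro d J f _ _ _ _ _
    exact Dp.zero _
  | succ r ih =>
    intro d J f hJ hd hf hrf hdp
    cases hdp with
    | @succ _ _ l hl hr h =>
      have hJl := ((h_hga K N).2.1 J 1 l hJ hl).1
      have hJf := ((h_hga K N).2.1 J d f hJ hf).1
      have n1 : NS (J ⊔ Ideal.span {l}) := ns_of_dp h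
      have n2 : NS (J ⊔ Ideal.span {f}) := t_exs K N 1 d J l f le_rfl hd hl hf hr hrf n1
      obtain ⟨m, hm, r1, r2⟩ := t_crl K N _ _ hJf hJl n2 n1
      obtain ⟨r3, r4⟩ := h_prm K N d 1 J f m hJ hd le_rfl hf hm hrf r1
      obtain ⟨-, r6⟩ := h_prm K N 1 1 J l m hJ le_rfl le_rfl hl hm hr r2
      have hJm := ((h_hga K N).2.1 J 1 m hJ hm).1
      have d1 := ih 1 (J ⊔ Ideal.span {l}) m hJl le_rfl hm r2 h
      rw [sup_right_comm] at d1
      have d2 : Dp (r + 1) (J ⊔ Ideal.span {m}) := Dp.succ hl r6 d1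
      have d3 := ih d (J ⊔ Ideal.span {m}) f hJm hd hf r4 d2
      rw [sup_right_comm] at d3
      exact Dp.succ hm r1 d3

/-- DPX. -/
theorem t_dpx : DPXStmt := by
  intro K _ _ N r
  induction r with
  | zero => intro P y _ _ _ _; exact Dp.zero _
  | succ r ih =>
    intro P y hP hy h1 h2
    obtain ⟨hPy, hcl⟩ := (h_hga K N).2.1 P 1 y hP hy
    obtain ⟨l, hl, r1, r2⟩ := t_crl K N _ _ hcl hPy (ns_of_dp h1) (ns_of_dp h2)
    have hPl := ((h_hga K N).2.1 P 1 l hP hl).1
    have r3 : Rg P l := by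
      intro z hz
      obtain ⟨p, hp, w, hw⟩ := mem_sg.1 (r2 z (Ideal.mem_sup_left hz))
      have h3 : l * w ∈ clI P y := by
        change y * (l * w) ∈ P
        have h4 : y * (l * w) = l * z - l * p := by rw [hw]; ring
        rw [h4]
        exact sub_mem hz (Ideal.mul_mem_left _ _ hp)
      have h5 : y * w ∈ P := r1 w h3
      rw [hw]
      exact add_mem hp h5
    have d1 := t_dpi K N r 1 (clI P y) l hcl le_rfl hl r1 h1
    have d2 := t_dpi K N r 1 (P ⊔ Ideal.span {y}) l hPy le_rfl hl r2 h2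
    have e1 : clI (P ⊔ Ideal.span {l}) y = clI P y ⊔ Ideal.span {l} := by
      apply le_antisymm
      · intro w hw
        have hw' : y * w ∈ P ⊔ Ideal.span {l} := hw
        obtain ⟨p, hp, t, ht⟩ := mem_sg.1 hw'
        have h3 : l * t ∈ P ⊔ Ideal.span {y} :=
          mem_sg.2 ⟨-p, neg_mem hp, w, by rw [ht]; ring⟩
        obtain ⟨p', hp', t', ht'⟩ := mem_sg.1 (r2 t h3)
        refine mem_sg.2 ⟨w - l * t', ?_, t', by ring⟩
        change y * (w - l * t') ∈ P
        have h4 : y * (w - l * t') = p + l * p' := by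
          calc y * (w - l * t') = y * w - l * (y * t') := by ring
            _ = (p + l * t) - l * (t - p') := by rw [ht, ht']; ring
            _ = p + l * p' := by ring
        rw [h4]
        exact add_mem hp (Ideal.mul_mem_left _ _ hp')
      · refine sup_le ?_ ((Ideal.span_singleton_le_iff_mem _).2 ?_)
        · intro w hw
          have hw' : y * w ∈ P := hw
          exact Ideal.mem_sup_left hw'
        · change y * l ∈ P ⊔ Ideal.span {l}
          exact Ideal.mem_sup_right (Ideal.mul_mem_left _ _ (Ideal.mem_span_singleton_self l))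
    rw [← e1] at d1
    rw [sup_right_comm] at d2
    exact Dp.succ hl r3 (ih _ y hPl hy d1 d2)

theorem hs_col {K : Type} [Field K] {N d : ℕ} (I : Ideal (PR K N)) (f : PR K N) (hI : Hg I)
    (hf' : f ∈ fm K N d) : hs (I ⊔ Ideal.span {f}) + PowerSeries.X ^ d * hs (clI I f) = hs I := by
  obtain ⟨h1, h2⟩ := h_col K N d I f hI hf'
  ext i
  rw [map_add]
  unfold hs
  rw [PowerSeries.coeff_mk, PowerSeries.coeff_mk]
  rcases Nat.lt_or_ge i d with h | h
  · rw [PowerSeries.coeff_X_pow_mul', if_neg (by omega), add_zero, h2 i h]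
  · obtain ⟨j, rfl⟩ : ∃ j, i = j + d := ⟨i - d, by omega⟩
    rw [PowerSeries.coeff_X_pow_mul, PowerSeries.coeff_mk, ← h1 j]
    push_cast
    rfl

theorem cl_rg {K : Type} [Field K] {N : ℕ} {I : Ideal (PR K N)} {f : PR K N} (h : Rg I f) :
    clI I f = I :=
  le_antisymm (fun z hz => h z hz) (fun _ hz => I.mul_mem_left f hz)

/-- CMA. -/
theorem t_cma : CMAStmt := by
  intro K _ N r t P l hP hl hr h
  refine ⟨hP, Dp.succ hl hr h.dp, ?_⟩
  intro j hj
  have h1 := hs_col P l hP hl
  rw [cl_rg hr, pow_one] at h1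
  have h2 : hs P * (1 - PowerSeries.X) ^ (r + 1) =
      hs (P ⊔ Ideal.span {l}) * (1 - PowerSeries.X) ^ r := by
    rw [eq_sub_of_add_eq h1]
    ring
  rw [h2]
  exact h.tp j hj

/-- CMB. -/
theorem t_cmb : CMBStmt := by
  intro K _ _ N r t P q h hq hr
  refine ⟨((h_hga K N).2.1 P 2 q h.hg hq).1,
    t_dpi K N r 2 P q h.hg (by norm_num) hq hr h.dp, ?_⟩
  intro j hj
  have h1 := hs_col P q h.hg hq
  rw [cl_rg hr] at h1
  have h2 : hs (P ⊔ Ideal.span {q}) * (1 - PowerSeries.X) ^ r =
      hs P * (1 - PowerSeries.X) ^ (r + 1) +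
        PowerSeries.X * (hs P * (1 - PowerSeries.X) ^ (r + 1)) := by
    rw [eq_sub_of_add_eq h1]
    ring
  rw [h2, map_add, h.tp j (by omega), zero_add]
  obtain ⟨i, rfl⟩ : ∃ i, j = i + 1 := ⟨j - 1, by omega⟩
  rw [PowerSeries.coeff_succ_X_mul]
  exact h.tp i (by omega)

/-- CMC. -/
theorem t_cmc : CMCStmt := by
  intro K _ _ N r t P y hP hy h1 h2
  refine ⟨hP, t_dpx K N r P y hP hy h1.dp h2.dp, ?_⟩
  intro j hj
  have h3 := hs_col P y hP hy
  rw [pow_one] at h3
  have h4 : hs P * (1 - PowerSeries.X) ^ r =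
      hs (P ⊔ Ideal.span {y}) * (1 - PowerSeries.X) ^ r +
        PowerSeries.X * (hs (clI P y) * (1 - PowerSeries.X) ^ r) := by
    rw [← h3]
    ring
  rw [h4, map_add, h2.tp j hj, zero_add]
  obtain ⟨i, rfl⟩ : ∃ i, j = i + 1 := ⟨j - 1, by omega⟩
  rw [PowerSeries.coeff_succ_X_mul]
  exact h1.tp i (by omega)

end Pool.EGD
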