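import Pool.Agent.H45.EGH.E8M

/-!
# EGD: pencils of forms (definitions and statements of the modules)

All the theorems `Pool.EGH.h_xxx` (H45/EGH/All.lean) and the lemmas of H45/EGH/E8S, E8M may be
used in the proofs.
-/

set_option autoImplicit false

namespace Pool.EGD

open MvPolynomial Pool.EGH

section Defs

variable {K : Type} [Field K] {N : ℕ}

/-- No socle: what is killed by all linear forms is zero modulo `J`. -/
def NS (J : Ideal (PR K N)) : Prop := ∀ z : PR K N, (∀ l ∈ fm K N 1, l * z ∈ J) → z ∈ J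

/-- The depth of the quotient by `J` is at least `r`. -/
inductive Dp : ℕ → Ideal (PR K N) → Prop
  | zero (J : Ideal (PR K N)) : Dp 0 J
  | succ {r : ℕ} {J : Ideal (PR K N)} {l : PR K N} : l ∈ fm K N 1 → Rg J l →
      Dp r (J ⊔ Ideal.span {l}) → Dp (r + 1) J

/-- The Hilbert series of the quotient by `J`. -/
noncomputable def hs (J : Ideal (PR K N)) : PowerSeries ℤ :=
  PowerSeries.mk fun i => (hf J i : ℤ)

/-- The Hilbert series times `(1 - X) ^ r` has no coefficients above degree `t`. -/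
def Tp (r t : ℕ) (J : Ideal (PR K N)) : Prop :=
  ∀ j, t < j → PowerSeries.coeff j (hs J * (1 - PowerSeries.X) ^ r) = 0

/-- The quotient by `J` is Cohen-Macaulay of dimension `r` and of regularity at most `t`. -/
structure CM (r t : ℕ) (J : Ideal (PR K N)) : Prop where
  hg : Hg J
  dp : Dp r J
  tp : Tp r t J

variable {S : Type} [AddCommGroup S] [Module K S]

/-- A pencil of linear forms, injective modulo `L`. -/
structure Pc (L : Submodule K (PR K N)) (p q : S →ₗ[K] PR K N) : Prop where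
  hL : L ≤ fm K N 1
  hp : ∀ x, p x ∈ fm K N 1
  hq : ∀ x, q x ∈ fm K N 1
  inj : ∀ (a b : K) (x : S), a • p x + b • q x ∈ L → x = 0 ∨ (a = 0 ∧ b = 0)

/-- The ideal generated by `L` and the minors of the pencil. -/
noncomputable def mi (L : Submodule K (PR K N)) (p q : S →ₗ[K] PR K N) : Ideal (PR K N) :=
  Ideal.span (L : Set (PR K N)) ⊔ Ideal.span {f | ∃ x y : S, f = p x * q y - p y * q x}

/-- The ideal generated by `L` and the linear forms `p x + c q x`. -/
noncomputable def fi (L : Submodule K (PR K N)) (p q : S →ₗ[K] PR K N) (c : K) : Ideal (PR K N) :=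
  Ideal.span ((L ⊔ LinearMap.range (p + c • q) : Submodule K (PR K N)) : Set (PR K N))

/-- A longest chain: `y i = p (x i)` for `i < a` and `q (x i) = y (i + 1)` modulo `L`. -/
structure Ch (L : Submodule K (PR K N)) (p q : S →ₗ[K] PR K N) (a : ℕ) (x : ℕ → S)
    (y : ℕ → PR K N) : Prop where
  pos : 1 ≤ a
  py : ∀ i, i < a → y i = p (x i)
  qy : ∀ i, i < a → q (x i) - y (i + 1) ∈ L
  yf : ∀ i, i ≤ a → y i ∈ fm K N 1
  ya : y a ∉ L ⊔ LinearMap.range p
  li : LinearIndependent K (fun i : Fin a => x i)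
  cl : ∀ (b c : K) (z : S), b • p z + c • q z ∈ L ⊔ Submodule.span K (y '' Set.Iic a) →
    z ∈ Submodule.span K (x '' Set.Iio a) ∨ (b = 0 ∧ c = 0)

/-- The ideals of the chain. -/
noncomputable def pk (L : Submodule K (PR K N)) (p q : S →ₗ[K] PR K N) (y : ℕ → PR K N) (i : ℕ) :
    Ideal (PR K N) := mi L p q ⊔ Ideal.span (y '' Set.Iio i)

/-- `f` is in almost all the ideals `fi L p q c`. -/
def AA (L : Submodule K (PR K N)) (p q : S →ₗ[K] PR K N) (f : PR K N) : Prop :=
  ∃ Z : Finset K, ∀ c : K, c ∉ Z → f ∈ fi L p q c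

end Defs

/-! ### Depth -/

/-- EXS: exchange of socles. -/
def EXSStmt : Prop :=
  ∀ (K : Type) [Field K] (N a b : ℕ) (J : Ideal (PR K N)) (f g : PR K N), 1 ≤ a → 1 ≤ b →
    f ∈ fm K N a → g ∈ fm K N b → Rg J f → Rg J g → NS (J ⊔ Ideal.span {f}) →
    NS (J ⊔ Ideal.span {g})

/-- CRL: a common regular linear form. -/
def CRLStmt : Prop :=
  ∀ (K : Type) [Field K] [Infinite K] (N : ℕ) (J J' : Ideal (PR K N)), Hg J → Hg J' → NS J →
    NS J' → ∃ l ∈ fm K N 1, Rg J l ∧ Rg J' l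

/-- DPI: the depth drops by at most one. -/
def DPIStmt : Prop :=
  ∀ (K : Type) [Field K] [Infinite K] (N r d : ℕ) (J : Ideal (PR K N)) (f : PR K N), Hg J →
    1 ≤ d → f ∈ fm K N d → Rg J f → Dp (r + 1) J → Dp r (J ⊔ Ideal.span {f})

/-- DPX: the depth in the exact sequence of `P : y`, `P` and `P + (y)`. -/
def DPXStmt : Prop :=
  ∀ (K : Type) [Field K] [Infinite K] (N r : ℕ) (P : Ideal (PR K N)) (y : PR K N), Hg P →
    y ∈ fm K N 1 → Dp r (clI P y) → Dp r (P ⊔ Ideal.span {y}) → Dp r P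

/-- CMA: Cohen-Macaulay quotients, a regular linear form. -/
def CMAStmt : Prop :=
  ∀ (K : Type) [Field K] (N r t : ℕ) (P : Ideal (PR K N)) (l : PR K N), Hg P →
    l ∈ fm K N 1 → Rg P l → CM r t (P ⊔ Ideal.span {l}) → CM (r + 1) t P

/-- CMB: Cohen-Macaulay quotients, a regular quadric. -/
def CMBStmt : Prop :=
  ∀ (K : Type) [Field K] [Infinite K] (N r t : ℕ) (P : Ideal (PR K N)) (q : PR K N),
    CM (r + 1) t P → q ∈ fm K N 2 → Rg P q → CM r (t + 1) (P ⊔ Ideal.span {q})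

/-- CMC: Cohen-Macaulay quotients, the exact sequence of a linear form. -/
def CMCStmt : Prop :=
  ∀ (K : Type) [Field K] [Infinite K] (N r t : ℕ) (P : Ideal (PR K N)) (y : PR K N), Hg P →
    y ∈ fm K N 1 → CM r t (clI P y) → CM r (t + 1) (P ⊔ Ideal.span {y}) → CM r (t + 1) P

/-- CML: ideals generated by linear forms. -/
def CMLStmt : Prop :=
  ∀ (K : Type) [Field K] (N r : ℕ) (L : Submodule K (PR K N)), L ≤ fm K N 1 →
    Module.finrank K L + r = N → CM r 0 (Ideal.span (L : Set (PR K N)))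

/-- CMQ: the quotient of a Cohen-Macaulay quotient by quadrics. -/
def CMQStmt : Prop :=
  ∀ (K : Type) [Field K] [Infinite K] (N r t : ℕ) (J : Ideal (PR K N))
    (V : Submodule K (PR K N)), CM r t J → V ≤ fm K N 2 → V ≠ ⊥ →
    (∃ m : ℕ, ∀ f ∈ fm K N m, f ∈ J ⊔ Ideal.span (V : Set (PR K N))) →
    ∀ j, t + r < j → ∀ f ∈ fm K N j, f ∈ J ⊔ Ideal.span (V : Set (PR K N))

/-! ### Pencils of linear forms -/

/-- FIP: the ideals `fi L p q c`. -/
def FIPStmt : Prop :=
  ∀ (K : Type) [Field K] (N : ℕ) (S : Type) [AddCommGroup S] [Module K S] [Module.Finite K S]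
    (L : Submodule K (PR K N)) (p q : S →ₗ[K] PR K N), Pc L p q → ∀ c : K,
    (fi L p q c).IsPrime ∧
    (∀ l ∈ fm K N 1, l ∈ fi L p q c → l ∈ L ⊔ LinearMap.range (p + c • q)) ∧
    (∀ r : ℕ, Module.finrank K L + Module.finrank K S + r = N → CM r 0 (fi L p q c)) ∧
    mi L p q ≤ fi L p q c ∧ Hg (mi L p q)

/-- CHN: existence of a longest chain. -/
def CHNStmt : Prop :=
  ∀ (K : Type) [Field K] [IsAlgClosed K] (N : ℕ) (S : Type) [AddCommGroup S] [Module K S]
    [Module.Finite K S] (L : Submodule K (PR K N)) (p q : S →ₗ[K] PR K N), Pc L p q →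
    1 ≤ Module.finrank K S → ∃ (a : ℕ) (x : ℕ → S) (y : ℕ → PR K N), Ch L p q a x y

/-- PSI: the parametrisation. -/
def PSIStmt : Prop :=
  ∀ (K : Type) [Field K] (N : ℕ) (S : Type) [AddCommGroup S] [Module K S] [Module.Finite K S]
    (L : Submodule K (PR K N)) (p q : S →ₗ[K] PR K N), Pc L p q →
    ∃ Ψ : PR K N →ₐ[K] Polynomial (PR K N ⧸ fi L p q 0),
      (∀ f, (Ψ f).coeff 0 = Ideal.Quotient.mk (fi L p q 0) f) ∧ (∀ l ∈ L, Ψ l = 0) ∧
      ∀ x, Ψ (p x) + Polynomial.X * Ψ (q x) = 0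

/-- CLQ: the colon ideals of the chain. -/
def CLQStmt : Prop :=
  ∀ (K : Type) [Field K] [Infinite K] (N : ℕ) (S : Type) [AddCommGroup S] [Module K S]
    [Module.Finite K S] (L : Submodule K (PR K N)) (p q : S →ₗ[K] PR K N) (a : ℕ) (x : ℕ → S)
    (y : ℕ → PR K N), Pc L p q → Ch L p q a x y →
    (∀ i, 1 ≤ i → i ≤ a → ∀ f, y i * f ∈ pk L p q y i ↔ f ∈ fi L p q 0) ∧
    (∀ f, AA L p q f → f ∈ fi L p q 0) ∧
    (∀ f, AA L p q f → ∀ i, 1 ≤ i → i ≤ a → f ∈ pk L p q y (i + 1) → f ∈ pk L p q y i) ∧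
    ∀ f, AA L p q (y 0 * f) → AA L p q f

/-- PKT: the end of the chain. -/
def PKTStmt : Prop :=
  ∀ (K : Type) [Field K] (N : ℕ) (S : Type) [AddCommGroup S] [Module K S] [Module.Finite K S]
    (L : Submodule K (PR K N)) (p q : S →ₗ[K] PR K N) (a : ℕ) (x : ℕ → S)
    (y : ℕ → PR K N), Pc L p q → Ch L p q a x y →
    (∀ C : Submodule K S, IsCompl (Submodule.span K (x '' Set.Iio a)) C →
      Pc (L ⊔ Submodule.span K (y '' Set.Iic a)) (p.comp C.subtype) (q.comp C.subtype) ∧
      mi (L ⊔ Submodule.span K (y '' Set.Iic a)) (p.comp C.subtype) (q.comp C.subtype) =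
        pk L p q y (a + 1) ∧
      (∀ f, AA L p q f → AA (L ⊔ Submodule.span K (y '' Set.Iic a)) (p.comp C.subtype)
        (q.comp C.subtype) f) ∧
      Module.finrank K ↥(L ⊔ Submodule.span K (y '' Set.Iic a)) =
        Module.finrank K L + (a + 1) ∧
      Module.finrank K C + a = Module.finrank K S) ∧
    (Module.finrank K S = a → pk L p q y a = fi L p q 0)

/-- SCA: the ideal of the minors is an intersection of linear ideals. -/
def SCAStmt : Prop :=
  ∀ (K : Type) [Field K] [IsAlgClosed K] (N : ℕ) (S : Type) [AddCommGroup S] [Module K S]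
    [Module.Finite K S] (L : Submodule K (PR K N)) (p q : S →ₗ[K] PR K N), Pc L p q →
    1 ≤ Module.finrank K S → ∀ f, AA L p q f → f ∈ mi L p q

/-- SCB: the quotient by the ideal of the minors is Cohen-Macaulay. -/
def SCBStmt : Prop :=
  ∀ (K : Type) [Field K] [IsAlgClosed K] (N : ℕ) (S : Type) [AddCommGroup S] [Module K S]
    [Module.Finite K S] (L : Submodule K (PR K N)) (p q : S →ₗ[K] PR K N), Pc L p q →
    1 ≤ Module.finrank K S → ∀ r : ℕ, Module.finrank K L + Module.finrank K S + r = N →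
    CM (r + 1) 1 (mi L p q)

/-! ### Pencils of forms modulo a complete intersection of quadrics -/

/-- PKF: pencils without elements killed by a linear form. -/
def PKFStmt : Prop :=
  ∀ (K : Type) [Field K] [IsAlgClosed K] (N n d : ℕ) (Q : Ideal (PR K N))
    (V : Submodule K (PR K N ⧸ Q)), CI n Q → V ≤ gp Q d → Module.finrank K V = 2 → KF Q V →
    2 * n ≤ dg Q V + (d + 2)

/-- PG1: growth of one element. -/
def PG1Stmt : Prop :=
  ∀ (K : Type) [Field K] [Infinite K] (N n d : ℕ) (Q : Ideal (PR K N))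
    (V : Submodule K (PR K N ⧸ Q)), CI n Q → V ≤ gp Q d → V ≠ ⊥ → n ≤ dg Q V + d

/-- PEN: growth of pencils. -/
def PENStmt : Prop :=
  ∀ (K : Type) [Field K] [IsAlgClosed K] (N n d : ℕ) (Q : Ideal (PR K N))
    (V : Submodule K (PR K N ⧸ Q)), CI n Q → V ≤ gp Q d → 2 ≤ Module.finrank K V →
    2 * n ≤ dg Q V + (2 * d + 1)

/-! ### The theorems -/

open Pool.EGC in
/-- UPB: the shadows of one or two vectors. -/
def UPBStmt : Prop :=
  ∀ (n i : ℕ) (B : Finset (Fin n → ℕ)), Sg (cp n n) i B →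
    (B.card = 1 → (up (cp n n) i B).card + i ≤ n) ∧
    (B.card = 2 → (up (cp n n) i B).card + (2 * i + 1) ≤ 2 * n)

/-- MA2: a sum. -/
def MA2Stmt : Prop :=
  ∀ (i : ℕ) (m : ℕ → ℕ), 1 ≤ i → (∀ k : ℕ, 1 ≤ k → k < i → m k < m (k + 1)) →
    i < ∑ k ∈ Finset.Icc 1 i, (m k).choose k →
    1 ≤ ∑ k ∈ Finset.Icc 1 i, (m k).choose (k + 1)

/-- DUA: small Hilbert functions. -/
def DUAStmt : Prop :=
  ∀ (K : Type) [Field K] [IsAlgClosed K] (N n i : ℕ) (Q I : Ideal (PR K N)), CI n Q → Hg I →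
    Q ≤ I → (hf I i ≤ i → hf I (i + 1) = 0) ∧ (hf I i ≤ 2 * i → hf I (i + 1) ≤ 1)

/-- DEF: large Hilbert functions. -/
def DEFStmt : Prop :=
  ∀ (K : Type) [Field K] [IsAlgClosed K] (N n i : ℕ) (Q I : Ideal (PR K N)), CI n Q → Hg I →
    Q ≤ I → (n.choose i ≤ hf I i + 1 → hf I i < n.choose i → hf I (i + 1) + n ≤ n.choose (i + 1) + i) ∧
      (hf I i + 2 = n.choose i → hf I (i + 1) + 2 * n ≤ n.choose (i + 1) + (2 * i + 1))

/-- The first theorem: the Hilbert function is at most `2 i` in degree `i`. -/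
def MainAStmt : Prop :=
  ∀ (K : Type) [Field K] (n : ℕ) (I : Ideal (MvPolynomial (Fin n) K)),
    (∀ f ∈ I, ∀ d : ℕ, MvPolynomial.homogeneousComponent d f ∈ I) →
    (∃ rs : List (MvPolynomial (Fin n) K), rs.length = n ∧
        (∀ f ∈ rs, f.IsHomogeneous 2 ∧ f ∈ I) ∧
        RingTheory.Sequence.IsRegular (MvPolynomial (Fin n) K) rs) →
    ∀ (i : ℕ), 1 ≤ i →
      Module.finrank K (MvPolynomial.homogeneousSubmodule (Fin n) K i) -
          Module.finrank K
            ↥(I.restrictScalars K ⊓ MvPolynomial.homogeneousSubmodule (Fin n) K i) ≤ 2 * i →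
      ∀ m : ℕ → ℕ, (∀ k : ℕ, 1 ≤ k → k < i → m k < m (k + 1)) →
        Module.finrank K (MvPolynomial.homogeneousSubmodule (Fin n) K i) -
            Module.finrank K
              ↥(I.restrictScalars K ⊓ MvPolynomial.homogeneousSubmodule (Fin n) K i)
          = ∑ k ∈ Finset.Icc 1 i, (m k).choose k →
        Module.finrank K (MvPolynomial.homogeneousSubmodule (Fin n) K (i + 1)) -
            Module.finrank K
              ↥(I.restrictScalars K ⊓ MvPolynomial.homogeneousSubmodule (Fin n) K (i + 1))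
          ≤ ∑ k ∈ Finset.Icc 1 i, (m k).choose (k + 1)

/-- The second theorem: the ideal has dimension at most two modulo the quadrics. -/
def MainBStmt : Prop :=
  ∀ (K : Type) [Field K] (n : ℕ) (I : Ideal (MvPolynomial (Fin n) K)),
    (∀ f ∈ I, ∀ d : ℕ, MvPolynomial.homogeneousComponent d f ∈ I) →
    (∃ rs : List (MvPolynomial (Fin n) K), rs.length = n ∧
        (∀ f ∈ rs, f.IsHomogeneous 2 ∧ f ∈ I) ∧
        RingTheory.Sequence.IsRegular (MvPolynomial (Fin n) K) rs) →
    ∀ (i : ℕ), 1 ≤ i →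
      n.choose i ≤ Module.finrank K (MvPolynomial.homogeneousSubmodule (Fin n) K i) -
          Module.finrank K
            ↥(I.restrictScalars K ⊓ MvPolynomial.homogeneousSubmodule (Fin n) K i) + 2 →
      ∀ m : ℕ → ℕ, (∀ k : ℕ, 1 ≤ k → k < i → m k < m (k + 1)) →
        Module.finrank K (MvPolynomial.homogeneousSubmodule (Fin n) K i) -
            Module.finrank K
              ↥(I.restrictScalars K ⊓ MvPolynomial.homogeneousSubmodule (Fin n) K i)
          = ∑ k ∈ Finset.Icc 1 i, (m k).choose k →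
        Module.finrank K (MvPolynomial.homogeneousSubmodule (Fin n) K (i + 1)) -
            Module.finrank K
              ↥(I.restrictScalars K ⊓ MvPolynomial.homogeneousSubmodule (Fin n) K (i + 1))
          ≤ ∑ k ∈ Finset.Icc 1 i, (m k).choose (k + 1)

end Pool.EGD
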